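import Pool.Agent.Helper48.TF.Defs2

/-! TF (helper48), part `LG`: commutators are central if they are central for generators. -/

set_option autoImplicit false

namespace Pool.Agent.Helper23.TF

open Pool.TF48

section

variable {Q : Type} [Ring Q] {X : Type} {r : X → Q}

lemma central_of_gen (hgen : Subring.closure (Set.range r) = ⊤) {w : Q}
    (hw : ∀ d, w * r d = r d * w) (q : Q) : w * q = q * w := by
  have hq : q ∈ Subring.closure (Set.range r) := by rw [hgen]; trivial
  induction hq using Subring.closure_induction with
  | mem x hx => obtain ⟨d, rfl⟩ := hx; exact hw d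
  | zero => rw [mul_zero, zero_mul]
  | one => rw [mul_one, one_mul]
  | add x y _ _ hx hy => rw [mul_add, add_mul, hx, hy]
  | neg x _ hx => rw [mul_neg, neg_mul, hx]
  | mul x y _ _ hx hy => rw [← mul_assoc, hx, mul_assoc, hy, mul_assoc]

lemma exists_coef (hgen : Subring.closure (Set.range r) = ⊤)
    (hc : ∀ a b (q : Q), (r a * r b - r b * r a) * q = q * (r a * r b - r b * r a)) (v : Q) :
    ∃ p : X →₀ Q, ∀ a, v * r a - r a * v = p.sum fun x q => q * (r x * r a - r a * r x) := by
  have hv : v ∈ Subring.closure (Set.range r) := by rw [hgen]; trivial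
  have hz : ∀ a, (0 : X →₀ Q).sum (fun x q => q * (r x * r a - r a * r x)) = 0 :=
    fun a => Finsupp.sum_zero_index
  have hadd : ∀ (p q : X →₀ Q) (a : X), (p + q).sum (fun x q => q * (r x * r a - r a * r x)) =
      p.sum (fun x q => q * (r x * r a - r a * r x)) +
      q.sum (fun x q => q * (r x * r a - r a * r x)) := by
    intro p q a
    classical
    exact Finsupp.sum_add_index' (fun x => zero_mul _) (fun x y z => add_mul _ _ _)
  induction hv using Subring.closure_induction with
  | mem x hx =>
    obtain ⟨b, rfl⟩ := hx
    refine ⟨Finsupp.single b 1, fun a => ?_⟩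
    rw [Finsupp.sum_single_index (zero_mul _), one_mul]
  | zero => exact ⟨0, fun a => by rw [hz]; noncomm_ring⟩
  | one => exact ⟨0, fun a => by rw [hz]; noncomm_ring⟩
  | add x y _ _ hx hy =>
    obtain ⟨p, hp⟩ := hx
    obtain ⟨q, hq⟩ := hy
    exact ⟨p + q, fun a => by rw [hadd, ← hp, ← hq]; noncomm_ring⟩
  | neg x _ hx =>
    obtain ⟨p, hp⟩ := hx
    refine ⟨p.mapRange (fun y => (-1) * y) (mul_zero _), fun a => ?_⟩
    rw [Finsupp.sum_mapRange_index (fun x => zero_mul _)]
    have h1 : p.sum (fun x q => -1 * q * (r x * r a - r a * r x)) =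
        -1 * p.sum (fun x q => q * (r x * r a - r a * r x)) := by
      rw [Finsupp.mul_sum]
      exact Finsupp.sum_congr fun x _ => mul_assoc _ _ _
    rw [h1, ← hp]
    noncomm_ring
  | mul x y _ _ hx hy =>
    obtain ⟨p, hp⟩ := hx
    obtain ⟨q, hq⟩ := hy
    refine ⟨q.mapRange (fun z => x * z) (mul_zero _) + p.mapRange (fun z => z * y) (zero_mul _),
      fun a => ?_⟩
    rw [hadd, Finsupp.sum_mapRange_index (fun x => zero_mul _),
      Finsupp.sum_mapRange_index (fun x => zero_mul _)]
    have h1 : q.sum (fun z w => x * w * (r z * r a - r a * r z)) =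
        x * q.sum (fun z w => w * (r z * r a - r a * r z)) := by
      rw [Finsupp.mul_sum]
      exact Finsupp.sum_congr fun x _ => mul_assoc _ _ _
    have h2 : p.sum (fun z w => w * y * (r z * r a - r a * r z)) =
        p.sum (fun z w => w * (r z * r a - r a * r z)) * y := by
      rw [Finsupp.sum_mul]
      exact Finsupp.sum_congr fun z _ => by rw [mul_assoc, mul_assoc, hc]
    rw [h1, h2, ← hp, ← hq]
    noncomm_ring

end

theorem lg : S_LG := by
  intro Q _ X r hgen hc hrel
  -- the symmetric relation for all elements
  have h2 : ∀ (v w : Q) (a d : X), (v * r d - r d * v) * (w * r a - r a * w) +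
      (v * r a - r a * v) * (w * r d - r d * w) = 0 := by
    intro v w a d
    obtain ⟨p, hp⟩ := exists_coef hgen hc v
    obtain ⟨q, hq⟩ := exists_coef hgen hc w
    rw [hp d, hq a, hp a, hq d]
    simp only [Finsupp.sum]
    rw [Finset.sum_mul_sum, Finset.sum_mul_sum, ← Finset.sum_add_distrib]
    refine Finset.sum_eq_zero fun x _ => ?_
    rw [← Finset.sum_add_distrib]
    refine Finset.sum_eq_zero fun y _ => ?_
    have e1 : ∀ b c : X, p x * (r x * r b - r b * r x) * (q y * (r y * r c - r c * r y)) =
        p x * q y * ((r x * r b - r b * r x) * (r y * r c - r c * r y)) := by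
      intro b c
      rw [mul_assoc, ← mul_assoc _ (q y), hc x b (q y)]
      noncomm_ring
    rw [e1, e1, ← mul_add]
    have h3 := hrel x d a y
    have h4 : (r x * r d - r d * r x) * (r y * r a - r a * r y) +
        (r x * r a - r a * r x) * (r y * r d - r d * r y) = 0 := by
      have h5 : (r x * r d - r d * r x) * (r y * r a - r a * r y) +
        (r x * r a - r a * r x) * (r y * r d - r d * r y) =
        -((r x * r d - r d * r x) * (r a * r y - r y * r a) +
          (r x * r a - r a * r x) * (r d * r y - r y * r d)) := by noncomm_ring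
      rw [h5, h3, neg_zero]
    rw [h4, mul_zero]
  have h3 : ∀ (v : Q) (a d : X), (v * r a - r a * v) * r d = r d * (v * r a - r a * v) := by
    intro v a d
    have hv : v ∈ Subring.closure (Set.range r) := by rw [hgen]; trivial
    induction hv using Subring.closure_induction with
    | mem x hx => obtain ⟨b, rfl⟩ := hx; exact hc b a (r d)
    | zero => noncomm_ring
    | one => noncomm_ring
    | add x y _ _ hx hy =>
      have e1 : (x + y) * r a - r a * (x + y) = (x * r a - r a * x) + (y * r a - r a * y) := by
        noncomm_ring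
      rw [e1, add_mul, mul_add, hx, hy]
    | neg x _ hx =>
      have e1 : -x * r a - r a * -x = -(x * r a - r a * x) := by noncomm_ring
      rw [e1, neg_mul, mul_neg, hx]
    | mul x y _ _ hx hy =>
      have e1 : (x * y) * r a - r a * (x * y) = x * (y * r a - r a * y) +
        (x * r a - r a * x) * y := by noncomm_ring
      have e2 := h2 x y a d
      rw [e1, ← sub_eq_zero]
      have e3 : (x * (y * r a - r a * y) + (x * r a - r a * x) * y) * r d -
          r d * (x * (y * r a - r a * y) + (x * r a - r a * x) * y) =
          x * ((y * r a - r a * y) * r d - r d * (y * r a - r a * y)) +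
          ((x * r a - r a * x) * r d - r d * (x * r a - r a * x)) * y +
          ((x * r d - r d * x) * (y * r a - r a * y) +
            (x * r a - r a * x) * (y * r d - r d * y)) := by noncomm_ring
      rw [e3, e2, hx, hy, sub_self, sub_self, mul_zero, zero_mul, add_zero, add_zero]
  have h4 : ∀ (v : Q) (a : X) (q : Q), (v * r a - r a * v) * q = q * (v * r a - r a * v) :=
    fun v a q => central_of_gen hgen (fun d => h3 v a d) q
  intro x y z
  refine central_of_gen hgen (fun d => ?_) z
  rw [← sub_eq_zero]
  have e1 : (x * y - y * x) * r d - r d * (x * y - y * x) =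
      ((x * r d - r d * x) * y - y * (x * r d - r d * x)) +
      (x * (y * r d - r d * y) - (y * r d - r d * y) * x) := by noncomm_ring
  rw [e1, h4 x d y, h4 y d x, sub_self, sub_self, add_zero]

end Pool.Agent.Helper23.TF
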