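import Pool.Agent.Helper48.TF.Defs2

/-! TF (helper48), part `LO`: ordered monomials times a generator. -/

set_option autoImplicit false

namespace Pool.Agent.Helper23.TF

open Pool.TF48

section

variable {U X : Type} [Ring U] [LinearOrder X] (r : X → U)

lemma er (i : X) (t : List X) (ht : (i :: t).Pairwise (· ≤ ·)) (i' : X) (hi' : i' ∈ t) :
    (((i :: t).erase i').map r).prod = r i * ((t.erase i').map r).prod := by
  by_cases h : i = i'
  · subst h
    rw [List.erase_cons_head]
    cases t with
    | nil => simp at hi'
    | cons a s =>
      have h1 : i ≤ a := (List.pairwise_cons.1 ht).1 a List.mem_cons_self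
      have h2 : a ≤ i := by
        rcases List.mem_cons.1 hi' with h | h
        · exact h.ge
        · exact (List.pairwise_cons.1 (List.pairwise_cons.1 ht).2).1 i h
      have h3 : a = i := le_antisymm h2 h1
      subst h3
      rw [List.erase_cons_head, List.map_cons, List.prod_cons]
  · rw [List.erase_cons_tail (by simpa using h), List.map_cons, List.prod_cons]

lemma list_step (hc : ∀ a b (q : U), (r a * r b - r b * r a) * q = q * (r a * r b - r b * r a))
    (j : X) : ∀ l : List X, l.Pairwise (· ≤ ·) →
      r j * (l.map r).prod = ((l.orderedInsert (· ≤ ·) j).map r).prod +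
        (l.map fun i => if i < j then ((l.erase i).map r).prod * (r j * r i - r i * r j) else 0).sum
  | [], _ => by simp
  | i :: t, ht => by
    have ht' : t.Pairwise (· ≤ ·) := (List.pairwise_cons.1 ht).2
    have hle : ∀ a ∈ t, i ≤ a := (List.pairwise_cons.1 ht).1
    by_cases hji : j ≤ i
    · rw [List.orderedInsert_cons_of_le _ t hji]
      have h0 : ((i :: t).map fun i' => if i' < j then
          (((i :: t).erase i').map r).prod * (r j * r i' - r i' * r j) else 0).sum = 0 := by
        refine List.sum_eq_zero fun x hx => ?_
        obtain ⟨a, ha, rfl⟩ := List.mem_map.1 hx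
        have : ¬ a < j := by
          rcases List.mem_cons.1 ha with h | h
          · rw [h]; exact not_lt.2 hji
          · exact not_lt.2 (hji.trans (hle a h))
        simp only [if_neg this]
      rw [h0, add_zero, List.map_cons, List.prod_cons, List.map_cons, List.prod_cons, List.map_cons,
        List.prod_cons]
    · have hij : i < j := not_le.1 hji
      rw [List.orderedInsert_of_not_le _ t hji]
      have ih := list_step hc j t ht'
      have h1 : (t.map fun i' => if i' < j then
          (((i :: t).erase i').map r).prod * (r j * r i' - r i' * r j) else 0).sum =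
          r i * (t.map fun i' => if i' < j then
            ((t.erase i').map r).prod * (r j * r i' - r i' * r j) else 0).sum := by
        rw [← List.sum_map_mul_left]
        congr 1
        refine List.map_congr_left fun a ha => ?_
        split_ifs with h
        · rw [er r i t ht a ha, mul_assoc]
        · rw [mul_zero]
      rw [List.map_cons, List.prod_cons, List.map_cons (f := fun i' => if i' < j then
          (((i :: t).erase i').map r).prod * (r j * r i' - r i' * r j) else 0), List.sum_cons, h1,
        if_pos hij, List.erase_cons_head, List.map_cons, List.prod_cons]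
      have h2 : r j * (r i * (t.map r).prod) = r i * (r j * (t.map r).prod) +
          (r j * r i - r i * r j) * (t.map r).prod := by noncomm_ring
      rw [h2, ih, hc j i, mul_add]
      abel

lemma sort_unique (s : Multiset X) (l : List X) (hl : l.Pairwise (· ≤ ·)) (h : (l : Multiset X) = s) :
    s.sort (· ≤ ·) = l := by
  refine List.Perm.eq_of_pairwise' (r := (· ≤ ·)) (Multiset.pairwise_sort _ _) hl ?_
  rw [← Multiset.coe_eq_coe, Multiset.sort_eq, h]

lemma multi_sum (f : X → U) (α : X →₀ ℕ) :
    (((Finsupp.toMultiset α).sort (· ≤ ·)).map f).sum = α.sum fun i k => k • f i := by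
  have h1 : (((Finsupp.toMultiset α).sort (· ≤ ·)).map f).sum =
      ((Finsupp.toMultiset α).map f).sum := by
    conv_rhs => rw [← Multiset.sort_eq (Finsupp.toMultiset α) (· ≤ ·)]
    rw [Multiset.map_coe, Multiset.sum_coe]
  rw [h1, Finsupp.toMultiset_apply]
  have h2 : ∀ s : Multiset X, (s.map f).sum =
      ((Multiset.sumAddMonoidHom : Multiset U →+ U).comp (Multiset.mapAddMonoidHom f)) s :=
    fun _ => rfl
  rw [h2, Finsupp.sum, map_sum, Finsupp.sum]
  refine Finset.sum_congr rfl fun i _ => ?_
  rw [map_nsmul, ← h2, Multiset.map_singleton, Multiset.sum_singleton]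

end

theorem lo : S_LO := by
  intro U X _ _ r hc α j
  classical
  have hp := Multiset.pairwise_sort (Finsupp.toMultiset α) (fun a b : X => a ≤ b)
  have h := list_step r hc j _ hp
  have e1 : ((Finsupp.toMultiset α).sort (· ≤ ·)).orderedInsert (· ≤ ·) j =
      (Finsupp.toMultiset (α + Finsupp.single j 1)).sort (· ≤ ·) := by
    refine (sort_unique _ _ (hp.orderedInsert _ _) ?_).symm
    rw [Multiset.coe_eq_coe.2 (List.perm_orderedInsert (· ≤ ·) j _), ← Multiset.cons_coe,
      Multiset.sort_eq, Finsupp.toMultiset_add, Finsupp.toMultiset_single, one_nsmul,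
      ← Multiset.singleton_add, add_comm]
  have e2 : ∀ i ∈ α.support, ((Finsupp.toMultiset α).sort (· ≤ ·)).erase i =
      (Finsupp.toMultiset (α - Finsupp.single i 1)).sort (· ≤ ·) := by
    intro i hi
    refine (sort_unique _ _ (hp.sublist List.erase_sublist) ?_).symm
    rw [← Multiset.coe_erase, Multiset.sort_eq]
    have h1 : α = (α - Finsupp.single i 1) + Finsupp.single i 1 := by
      rw [tsub_add_cancel_of_le]
      rw [Finsupp.single_le_iff]
      exact Nat.one_le_iff_ne_zero.2 (Finsupp.mem_support_iff.1 hi)
    conv_lhs => rw [h1, Finsupp.toMultiset_add, Finsupp.toMultiset_single, one_nsmul]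
    rw [add_comm, Multiset.singleton_add, Multiset.erase_cons_head]
  unfold om
  rw [h, e1, multi_sum]
  congr 1
  refine Finsupp.sum_congr fun i hi => ?_
  split_ifs with hij
  · rw [e2 i hi]
  · rw [smul_zero]

end Pool.Agent.Helper23.TF
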